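import Pool.Agent.Helper67.NX2.Defs
import Pool.Agent.Helper87.NX.DlA

/-!
# NX2-A27: degree lowering with major frequencies, first half (families)
-/

set_option autoImplicit false

open Finset
open scoped BigOperators ComplexConjugate

namespace Pool.Agent.Helper67.NX2

open Pool.Agent.Helper57.NX

noncomputable section

/-- a frequency `x` is major if `dint (q x) ≤ V` for some `1 ≤ q ≤ R` -/
def dlm_maj (R V x : ℝ) : Prop := ∃ q : ℕ, 1 ≤ q ∧ (q : ℝ) ≤ R ∧ dint (q * x) ≤ V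

theorem dlm_dint_neg (x : ℝ) : dint (-x) = dint x := by
  have key : ∀ y : ℝ, dint (-y) ≤ dint y := by
    intro y
    unfold dint
    have h := round_le (-y) (-round y)
    refine h.trans (le_of_eq ?_)
    rw [← abs_neg]
    congr 1
    push_cast
    ring
  refine le_antisymm (key x) ?_
  have h := key (-x)
  rwa [neg_neg] at h

theorem dlm_maj_neg (R V x : ℝ) : dlm_maj R V (-x) ↔ dlm_maj R V x := by
  unfold dlm_maj
  have h : ∀ q : ℕ, dint ((q : ℝ) * (-x)) = dint (q * x) := by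
    intro q
    rw [mul_neg, dlm_dint_neg]
  simp only [h]

section dlm_steps
variable {N : ℕ} [NeZero N] {k : ℕ} {κ ι : Type} [Fintype κ]

/-- the Gowers-Cauchy-Schwarz step for one member of the family -/
theorem dlm_gcs (hk : 1 ≤ k) {Ω : Finset ι} {F : ι → ZMod N → ℂ} {u : ZMod N → ℂ}
    (hrep : ∀ x, u x = conj (𝔼 n ∈ Ω, F n x)) (hu : ∀ x, ‖u x‖ ≤ 1) (X' : ℕ) (hX' : 1 ≤ X')
    (g : (Fin k → ℕ) → (Fin k → ℕ) → ZMod N → ℂ) :
    ‖𝔼 a ∈ boxset k X', 𝔼 b ∈ boxset k X', 𝔼 x : ZMod N, cube u a b x * g a b x‖ ^ (2 ^ k) ≤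
      (𝔼 c ∈ boxset k X' ×ˢ boxset k X', 𝔼 b ∈ boxset k X', 𝔼 n ∈ Ω, 𝔼 x : ZMod N,
        conj (cube (F n) c.1 c.2 x) * ∏ ω, cjj ω (g (sel ω c.1 c.2) b x)).re := by
  have hne : ∀ _i : Fin k, (range X').Nonempty := fun _ => ⟨0, mem_range.2 (by omega)⟩
  have h1 : 𝔼 a ∈ boxset k X', 𝔼 b ∈ boxset k X', 𝔼 x : ZMod N, cube u a b x * g a b x =
      𝔼 n ∈ Ω, 𝔼 x : ZMod N, 𝔼 b ∈ boxset k X', 𝔼 a ∈ boxset k X',
        (conj (F n (x + (tot a : ZMod N))) * g a b x) * ∏ j, dla_B hk u b x j a := by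
    rw [dla_comm4]
    refine expect_congr rfl (fun a _ => expect_congr rfl (fun b _ => ?_))
    rw [expect_comm]
    refine expect_congr rfl (fun x _ => ?_)
    rw [dla_cube_eq, hrep, mul_assoc, gcs_conj_expect, expect_mul]
    refine expect_congr rfl (fun n _ => ?_)
    rw [dla_rest_eq hk]
    ring
  rw [h1]
  have h2 : ‖𝔼 n ∈ Ω, 𝔼 x : ZMod N, 𝔼 b ∈ boxset k X', 𝔼 a ∈ boxset k X',
        (conj (F n (x + (tot a : ZMod N))) * g a b x) * ∏ j, dla_B hk u b x j a‖ ≤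
      𝔼 n ∈ Ω, 𝔼 x : ZMod N, 𝔼 b ∈ boxset k X', ‖𝔼 a ∈ boxset k X',
        (conj (F n (x + (tot a : ZMod N))) * g a b x) * ∏ j, dla_B hk u b x j a‖ := by
    refine (dla_norm_expect_le _ _).trans (expect_le_expect (fun n _ => ?_))
    refine (dla_norm_expect_le _ _).trans (expect_le_expect (fun x _ => ?_))
    exact dla_norm_expect_le _ _
  have h3 := (pow_le_pow_left₀ (norm_nonneg _) h2 (2 ^ k)).trans
    ((gcs_pow_expect_le _ k _ (fun n _ => expect_nonneg (fun x _ => expect_nonneg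
      (fun b _ => norm_nonneg _)))).trans (expect_le_expect (fun n _ =>
    (gcs_pow_expect_le _ k _ (fun x _ => expect_nonneg
      (fun b _ => norm_nonneg _))).trans (expect_le_expect (fun x _ =>
    gcs_pow_expect_le _ k _ (fun b _ => norm_nonneg _))))))
  refine h3.trans ?_
  have h4 : ∀ n ∈ Ω, ∀ x : ZMod N, ∀ b ∈ boxset k X', ‖𝔼 a ∈ boxset k X',
        (conj (F n (x + (tot a : ZMod N))) * g a b x) *
          ∏ j, dla_B hk u b x j a‖ ^ (2 ^ k) ≤
      (𝔼 c ∈ boxset k X' ×ˢ boxset k X',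
        conj (cube (F n) c.1 c.2 x) * ∏ ω, cjj ω (g (sel ω c.1 c.2) b x)).re := by
    intro n _ x b _
    refine (gcs hk (fun _ => range X') hne
      (fun a => conj (F n (x + (tot a : ZMod N))) * g a b x)
      (fun j a => dla_B hk u b x j a) (fun j a => dla_B_norm hk hu b x j a)
      (fun j a a' haa => dla_B_indep hk u b x j a a' haa)).trans (le_of_eq ?_)
    congr 1
    rw [expect_product]
    refine expect_congr rfl (fun a _ => expect_congr rfl (fun a' _ => ?_))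
    have h5 := dla_prod_conj (F n) (fun a x => g a b x) a a' x 0
    simp only [add_zero] at h5
    exact h5
  refine (expect_le_expect (fun n hn => expect_le_expect (fun x _ => expect_le_expect
    (fun b hb => h4 n hn x b hb)))).trans (le_of_eq ?_)
  rw [← dla_comm4 Ω univ (boxset k X') (boxset k X' ×ˢ boxset k X')]
  rw [gcs_re_expect]
  refine expect_congr rfl (fun n _ => ?_)
  rw [gcs_re_expect]
  refine expect_congr rfl (fun x _ => ?_)
  rw [gcs_re_expect]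

/-- the Gowers-Cauchy-Schwarz step for the family -/
theorem dlm_gcs_fam (hk : 1 ≤ k) {Ω : Finset ι} {F : ι → κ → ZMod N → ℂ} {u : κ → ZMod N → ℂ}
    (hrep : ∀ i x, u i x = conj (𝔼 n ∈ Ω, F n i x)) (hu : ∀ i x, ‖u i x‖ ≤ 1) (X' : ℕ)
    (hX' : 1 ≤ X') (g : κ → (Fin k → ℕ) → (Fin k → ℕ) → ZMod N → ℂ) (δ₁ : ℝ) (hδ : 0 ≤ δ₁)
    (h : δ₁ ≤ ‖𝔼 i, 𝔼 a ∈ boxset k X', 𝔼 b ∈ boxset k X', 𝔼 x : ZMod N,
      cube (u i) a b x * g i a b x‖) :
    δ₁ ^ (2 ^ k) ≤ 𝔼 c ∈ boxset k X' ×ˢ boxset k X', 𝔼 b ∈ boxset k X',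
      (𝔼 n ∈ Ω, 𝔼 i, 𝔼 x : ZMod N,
        conj (cube (F n i) c.1 c.2 x) * ∏ ω, cjj ω (g i (sel ω c.1 c.2) b x)).re := by
  have h1 : δ₁ ^ (2 ^ k) ≤ 𝔼 i, ‖𝔼 a ∈ boxset k X', 𝔼 b ∈ boxset k X', 𝔼 x : ZMod N,
      cube (u i) a b x * g i a b x‖ ^ (2 ^ k) := by
    refine (pow_le_pow_left₀ hδ (h.trans (dla_norm_expect_le _ _)) (2 ^ k)).trans ?_
    exact gcs_pow_expect_le _ k _ (fun i _ => norm_nonneg _)
  refine h1.trans ((expect_le_expect (fun i _ =>
    dlm_gcs hk (F := fun n => F n i) (hrep i) (hu i) X' hX' (g i))).trans (le_of_eq ?_))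
  have h2 : ∀ i ∈ (univ : Finset κ), (𝔼 c ∈ boxset k X' ×ˢ boxset k X', 𝔼 b ∈ boxset k X',
      𝔼 n ∈ Ω, 𝔼 x : ZMod N,
        conj (cube (F n i) c.1 c.2 x) * ∏ ω, cjj ω (g i (sel ω c.1 c.2) b x)).re =
      𝔼 c ∈ boxset k X' ×ˢ boxset k X', 𝔼 b ∈ boxset k X', 𝔼 n ∈ Ω, (𝔼 x : ZMod N,
        conj (cube (F n i) c.1 c.2 x) * ∏ ω, cjj ω (g i (sel ω c.1 c.2) b x)).re := by
    intro i _
    rw [gcs_re_expect]
    refine expect_congr rfl (fun c _ => ?_)
    rw [gcs_re_expect]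
    refine expect_congr rfl (fun b _ => ?_)
    rw [gcs_re_expect]
  rw [expect_congr rfl h2, expect_comm]
  refine expect_congr rfl (fun c _ => ?_)
  rw [expect_comm]
  refine expect_congr rfl (fun b _ => ?_)
  rw [expect_comm, gcs_re_expect]
  refine expect_congr rfl (fun n _ => ?_)
  rw [gcs_re_expect]

open Classical in
/-- non-major frequencies give a small form, major ones are counted -/
theorem dlm_split [Nonempty κ] {Ω : Finset ι} {F : ι → κ → ZMod N → ℂ}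
    (hF : ∀ n i x, ‖F n i x‖ ≤ 1) (X X' : ℕ) (hX : 1 ≤ X) {R V η : ℝ}
    (hLP : LPhM Ω F k X' X R V η) (a a' : Fin k → ℕ) (ha : a ∈ boxset k X')
    (ha' : a' ∈ boxset k X') (r : ZMod N) (C : κ → ℕ → ℂ) (Φ : κ → ℕ → ℝ)
    (hC : ∀ i j, ‖C i j‖ ≤ 1) (hC0 : ∀ i j, N / X ≤ j → C i j = 0) :
    ‖𝔼 n ∈ Ω, 𝔼 i, 𝔼 x : ZMod N, conj (cube (F n i) a a' x) * bphase X r (C i) (Φ i) x‖ ≤
      (𝔼 i, 𝔼 j ∈ range (N / X), if C i j ≠ 0 ∧ dlm_maj R V (Φ i j) then (1 : ℝ) else 0)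
        + η := by
  set C1 : κ → ℕ → ℂ := fun i j => if dlm_maj R V (Φ i j) then 0 else C i j with hC1
  set C2 : κ → ℕ → ℂ := fun i j => if dlm_maj R V (Φ i j) then C i j else 0 with hC2
  have hsum : ∀ i x, bphase X r (C i) (Φ i) x =
      bphase X r (C2 i) (Φ i) x + bphase X r (C1 i) (Φ i) x := by
    intro i x
    unfold bphase
    rw [← add_mul, hC1, hC2]
    congr 1
    dsimp only
    split_ifs <;> simp
  have hsplit : 𝔼 n ∈ Ω, 𝔼 i, 𝔼 x : ZMod N, conj (cube (F n i) a a' x) *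
        bphase X r (C i) (Φ i) x =
      (𝔼 n ∈ Ω, 𝔼 i, 𝔼 x : ZMod N, conj (cube (F n i) a a' x) * bphase X r (C2 i) (Φ i) x) +
      𝔼 n ∈ Ω, 𝔼 i, 𝔼 x : ZMod N, conj (cube (F n i) a a' x) *
        bphase X r (C1 i) (Φ i) x := by
    rw [← expect_add_distrib]
    refine expect_congr rfl (fun n _ => ?_)
    rw [← expect_add_distrib]
    refine expect_congr rfl (fun i _ => ?_)
    rw [← expect_add_distrib]
    refine expect_congr rfl (fun x _ => ?_)
    rw [hsum i x]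
    ring
  rw [hsplit]
  refine (norm_add_le _ _).trans (add_le_add ?_ ?_)
  · refine (dla_norm_expect_le_const _ _ _ ?_ (fun n _ => ?_))
    · refine expect_nonneg (fun i _ => expect_nonneg (fun j _ => ?_))
      split_ifs <;> norm_num
    · refine (dla_norm_expect_le _ _).trans (expect_le_expect (fun i _ => ?_))
      refine (dla_norm_expect_le _ _).trans ?_
      have h1 := dla_expect_blk_le X hX r
        (fun j => if C i j ≠ 0 ∧ dlm_maj R V (Φ i j) then (1 : ℝ) else 0)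
        (fun j => by split_ifs <;> norm_num)
        (fun j hj => by
          rw [if_neg]
          intro h
          exact h.1 (hC0 i j hj))
      refine le_trans (expect_le_expect (fun x _ => ?_)) h1
      rw [norm_mul, dla_norm_bphase, RCLike.norm_conj]
      have h2 : ‖cube (F n i) a a' x‖ ≤ 1 := norm_cube_le k (hF n i) a a' _
      have h3 : ‖C2 i ((x - r).val / X)‖ ≤
          if C i ((x - r).val / X) ≠ 0 ∧ dlm_maj R V (Φ i ((x - r).val / X))
            then (1 : ℝ) else 0 := by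
        rw [hC2]
        dsimp only
        by_cases hV : dlm_maj R V (Φ i ((x - r).val / X))
        · rw [if_pos hV]
          by_cases hz : C i ((x - r).val / X) = 0
          · rw [hz, norm_zero]
            split_ifs <;> norm_num
          · rw [if_pos ⟨hz, hV⟩]
            exact hC _ _
        · rw [if_neg hV, norm_zero]
          split_ifs <;> norm_num
      calc ‖cube (F n i) a a' x‖ * ‖C2 i ((x - r).val / X)‖
          ≤ 1 * ‖C2 i ((x - r).val / X)‖ := mul_le_mul_of_nonneg_right h2 (norm_nonneg _)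
        _ = ‖C2 i ((x - r).val / X)‖ := one_mul _
        _ ≤ _ := h3
  · have h1 : conj (𝔼 n ∈ Ω, 𝔼 i, 𝔼 x : ZMod N, conj (cube (F n i) a a' x) *
        bphase X r (C1 i) (Φ i) x) = 𝔼 n ∈ Ω, 𝔼 i, 𝔼 x : ZMod N, cube (F n i) a a' x *
          bphase X r (fun j => conj (C1 i j)) (fun j => -Φ i j) x := by
      rw [gcs_conj_expect]
      refine expect_congr rfl (fun n _ => ?_)
      rw [gcs_conj_expect]
      refine expect_congr rfl (fun i _ => ?_)
      rw [gcs_conj_expect]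
      refine expect_congr rfl (fun x _ => ?_)
      have h3 := dla_bphase_conj X r 0 x (C1 i) (Φ i)
      rw [sub_zero, add_zero] at h3
      rw [map_mul, Complex.conj_conj, h3]
    have h2 := hLP a ha a' ha' r (fun i j => conj (C1 i j)) (fun i j => -Φ i j)
      (fun i j => by
        rw [RCLike.norm_conj, hC1]
        dsimp only
        split_ifs
        · simp
        · exact hC i j)
      (fun i j hj q hq1 hqR => by
        by_contra hcon
        apply hj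
        have h4 : dlm_maj R V (Φ i j) := by
          rw [← dlm_maj_neg]
          exact ⟨q, hq1, hqR, not_lt.1 hcon⟩
        rw [hC1]
        dsimp only
        rw [if_pos h4, map_zero])
    rw [← h1, RCLike.norm_conj] at h2
    exact h2.le

theorem dlm_start [Nonempty κ] {u : κ → ZMod N → ℂ} (hu : ∀ i x, ‖u i x‖ ≤ 1) {β : ℝ}
    (X X' : ℕ) (hX' : 1 ≤ X') (hX'X : X' ≤ X) (hXN : X ≤ N)
    (hBox : β ≤ 𝔼 i, Box (k + 2) X (u i))
    (h1 : (k : ℝ) * (4 * X' / X) ≤ β / 2) (h2 : 2 * (X : ℝ) / N ≤ β / 4) :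
    ∃ (r : ZMod N) (θ : κ × ((Fin k → ℕ) × (Fin k → ℕ)) → ℕ → ℝ),
      β / 8 ≤ 𝔼 z ∈ (univ : Finset κ) ×ˢ (boxset k X' ×ˢ boxset k X'), 𝔼 j ∈ range (N / X),
        ‖dla_S X r (cube (u z.1) z.2.1 z.2.2) (θ z) j‖ := by
  have hne : (boxset k X').Nonempty := by
    unfold boxset
    rw [Fintype.piFinset_nonempty]
    exact fun _ => ⟨0, mem_range.2 (by omega)⟩
  obtain ⟨r, θ, hθ, hb⟩ := u2_block ((univ : Finset κ) ×ˢ (boxset k X' ×ˢ boxset k X'))
    (univ_nonempty.product (hne.product hne))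
    (fun z => cube (u z.1) z.2.1 z.2.2) (fun z x => norm_cube_le k (hu z.1) z.2.1 z.2.2 x) X
    (by omega) hXN
  refine ⟨r, θ, ?_⟩
  have h3 : 𝔼 i, Box (k + 2) X (u i) ≤
      (𝔼 z ∈ (univ : Finset κ) ×ˢ (boxset k X' ×ˢ boxset k X'),
        U2 X (cube (u z.1) z.2.1 z.2.2)) + k * (4 * X' / X) := by
    have h4 : 𝔼 i, Box (k + 2) X (u i) ≤ 𝔼 i : κ, ((𝔼 a ∈ boxset k X', 𝔼 b ∈ boxset k X',
        U2 X (cube (u i) a b)) + k * (4 * X' / X)) :=
      expect_le_expect (fun i _ => Box_shorten k X X' hX' hX'X (hu i))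
    rw [expect_add_distrib, expect_const univ_nonempty] at h4
    refine h4.trans (le_of_eq ?_)
    congr 1
    rw [expect_product univ (boxset k X' ×ˢ boxset k X')
      (fun z => U2 X (cube (u z.1) z.2.1 z.2.2))]
    refine expect_congr rfl (fun i _ => ?_)
    rw [expect_product (boxset k X') (boxset k X') (fun z => U2 X (cube (u i) z.1 z.2))]
  unfold dla_S
  linarith

open Classical in
/-- the correlation with the good block phases -/
theorem dlm_corr {u : κ → ZMod N → ℂ} (X X' : ℕ) (hX : 1 ≤ X) (hXN : X ≤ N) (r : ZMod N)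
    (θ : κ × ((Fin k → ℕ) × (Fin k → ℕ)) → ℕ → ℝ) (β : ℝ) (hβ : 0 < β) :
    𝔼 i, 𝔼 a ∈ boxset k X', 𝔼 b ∈ boxset k X', 𝔼 x : ZMod N,
      cube (u i) a b x * bphase X r (dla_cc X r (cube (u i) a b) (θ (i, (a, b))) β)
        (fun j => -dla_th X r (cube (u i) a b) (θ (i, (a, b))) β j) x =
      (((X : ℝ) * ((N / X : ℕ) : ℝ) / N *
        𝔼 z ∈ (univ : Finset κ) ×ˢ (boxset k X' ×ˢ boxset k X'), 𝔼 j ∈ range (N / X),
          (if dla_good X r (cube (u z.1) z.2.1 z.2.2) (θ z) β j then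
            ‖dla_S X r (cube (u z.1) z.2.1 z.2.2) (θ z) j‖ else 0) : ℝ) : ℂ) := by
  have hr : ∀ i : κ, ∀ a ∈ boxset k X', ∀ b ∈ boxset k X', 𝔼 x : ZMod N,
      cube (u i) a b x * bphase X r (dla_cc X r (cube (u i) a b) (θ (i, (a, b))) β)
        (fun j => -dla_th X r (cube (u i) a b) (θ (i, (a, b))) β j) x =
      (((X : ℝ) * ((N / X : ℕ) : ℝ) / N * 𝔼 j ∈ range (N / X),
        (if dla_good X r (cube (u i) a b) (θ (i, (a, b))) β j then
          ‖dla_S X r (cube (u i) a b) (θ (i, (a, b))) j‖ else 0) : ℝ) : ℂ) :=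
    fun i a _ b _ => dla_corr_g X hX hXN r (cube (u i) a b) (θ (i, (a, b))) β hβ
  rw [expect_congr rfl (fun i _ => expect_congr rfl (fun a ha => expect_congr rfl
    (fun b hb => hr i a ha b hb)))]
  have h1 : ∀ i ∈ (univ : Finset κ), 𝔼 a ∈ boxset k X', 𝔼 b ∈ boxset k X',
      (((X : ℝ) * ((N / X : ℕ) : ℝ) / N * 𝔼 j ∈ range (N / X),
        (if dla_good X r (cube (u i) a b) (θ (i, (a, b))) β j then
          ‖dla_S X r (cube (u i) a b) (θ (i, (a, b))) j‖ else 0) : ℝ) : ℂ) =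
      𝔼 c ∈ boxset k X' ×ˢ boxset k X', (((X : ℝ) * ((N / X : ℕ) : ℝ) / N *
        𝔼 j ∈ range (N / X), (if dla_good X r (cube (u i) c.1 c.2) (θ (i, c)) β j then
          ‖dla_S X r (cube (u i) c.1 c.2) (θ (i, c)) j‖ else 0) : ℝ) : ℂ) := by
    intro i _
    rw [expect_product (boxset k X') (boxset k X') (fun c =>
      (((X : ℝ) * ((N / X : ℕ) : ℝ) / N *
        𝔼 j ∈ range (N / X), (if dla_good X r (cube (u i) c.1 c.2) (θ (i, c)) β j then
          ‖dla_S X r (cube (u i) c.1 c.2) (θ (i, c)) j‖ else 0) : ℝ) : ℂ))]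
  rw [expect_congr rfl h1]
  rw [← expect_product (univ : Finset κ) (boxset k X' ×ˢ boxset k X') (fun z =>
    (((X : ℝ) * ((N / X : ℕ) : ℝ) / N * 𝔼 j ∈ range (N / X),
        (if dla_good X r (cube (u z.1) z.2.1 z.2.2) (θ z) β j then
          ‖dla_S X r (cube (u z.1) z.2.1 z.2.2) (θ z) j‖ else 0) : ℝ) : ℂ))]
  rw [mul_expect]
  symm
  exact map_expect (Complex.ofRealCLM.toLinearMap.restrictScalars ℚ≥0) _ _

open Classical in
theorem dlm_main [Nonempty κ] (hk : 1 ≤ k) {Ω : Finset ι} {F : ι → κ → ZMod N → ℂ}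
    {u : κ → ZMod N → ℂ} (hF : ∀ n i x, ‖F n i x‖ ≤ 1)
    (hrep : ∀ i x, u i x = conj (𝔼 n ∈ Ω, F n i x)) (hu : ∀ i x, ‖u i x‖ ≤ 1)
    {β R V η : ℝ} (X X' : ℕ) (hX' : 1 ≤ X') (hX'X : X' ≤ X) (hXN : 2 * X ≤ N)
    (hβ : 0 < β) (hBox : β ≤ 𝔼 i, Box (k + 2) X (u i))
    (h1 : (k : ℝ) * (4 * X' / X) ≤ β / 2) (h2 : 2 * (X : ℝ) / N ≤ β / 4)
    (hη : η ≤ (β / 32) ^ (2 ^ k) / 2) (hLP : LPhM Ω F k X' X R V η) :
    ∃ (r : ZMod N) (θ : κ → (Fin k → ℕ) → (Fin k → ℕ) → ℕ → ℝ) (a' : κ → ℕ → Fin k → ℕ),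
        (∀ i j, a' i j ∈ boxset k X') ∧
        (β / 32) ^ (2 ^ k + 1) ≤ 𝔼 i, 𝔼 j ∈ range (N / X), 𝔼 a ∈ boxset k X',
          𝔼 b ∈ boxset k X',
          (if dlm_maj R V (θ i a b j - psiSum (θ i) (a' i j) a b j) then
            ‖𝔼 t ∈ range X, cube (u i) a b (r + ((j * X + t : ℕ) : ZMod N)) *
              e (-(θ i a b j * t))‖
          else 0) := by
  have hX1 : 1 ≤ X := hX'.trans hX'X
  have hXN1 : X ≤ N := by omega
  have hne : (boxset k X').Nonempty := by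
    unfold boxset
    rw [Fintype.piFinset_nonempty]
    exact fun _ => ⟨0, mem_range.2 (by omega)⟩
  obtain ⟨r, θ0, hst⟩ := dlm_start hu X X' hX' hX'X hXN1 hBox h1 h2
  have hgd : β / 16 ≤ 𝔼 z ∈ (univ : Finset κ) ×ˢ (boxset k X' ×ˢ boxset k X'),
      𝔼 j ∈ range (N / X), (if dla_good X r (cube (u z.1) z.2.1 z.2.2) (θ0 z) β j then
        ‖dla_S X r (cube (u z.1) z.2.1 z.2.2) (θ0 z) j‖ else 0) :=
    dla_good_avg ((univ : Finset κ) ×ˢ (boxset k X' ×ˢ boxset k X')) X r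
      (fun z => cube (u z.1) z.2.1 z.2.2) θ0 β hβ hst
  set θ : κ → (Fin k → ℕ) → (Fin k → ℕ) → ℕ → ℝ :=
    fun i a b => dla_th X r (cube (u i) a b) (θ0 (i, (a, b))) β with hθ
  set cc : κ → (Fin k → ℕ) → (Fin k → ℕ) → ℕ → ℂ :=
    fun i a b => dla_cc X r (cube (u i) a b) (θ0 (i, (a, b))) β with hcc
  -- the correlation
  have hcorr := dlm_corr (u := u) (k := k) X X' hX1 hXN1 r θ0 β hβ
  have hXJ : (1 : ℝ) / 2 ≤ (X : ℝ) * ((N / X : ℕ) : ℝ) / N := by
    have hN : (0 : ℝ) < N := by exact_mod_cast Nat.pos_of_ne_zero (NeZero.ne N)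
    rw [le_div_iff₀ hN]
    have h3 : N < X * (N / X) + X := by
      have h4 := Nat.div_add_mod N X
      have h5 := Nat.mod_lt N (show X > 0 by omega)
      omega
    have h6 : N ≤ 2 * (X * (N / X)) := by omega
    have h7 : (N : ℝ) ≤ 2 * ((X : ℝ) * ((N / X : ℕ) : ℝ)) := by exact_mod_cast h6
    linarith
  have hδ1 : β / 32 ≤ ‖𝔼 i, 𝔼 a ∈ boxset k X', 𝔼 b ∈ boxset k X', 𝔼 x : ZMod N,
      cube (u i) a b x * bphase X r (cc i a b) (fun j => -θ i a b j) x‖ := by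
    rw [hcc, hθ]
    dsimp only
    rw [hcorr, Complex.norm_real, Real.norm_eq_abs]
    refine le_trans ?_ (le_abs_self _)
    calc β / 32 = 1 / 2 * (β / 16) := by ring
      _ ≤ _ := mul_le_mul hXJ hgd (by positivity) (by positivity)
  have hy := dlm_gcs_fam hk hrep hu X' hX'
    (fun i a b x => bphase X r (cc i a b) (fun j => -θ i a b j) x) (β / 32) (by positivity) hδ1
  -- the phases of the cube
  set P : κ → (Fin k → ℕ) → (Fin k → ℕ) → (Fin k → ℕ) → ℕ → ℝ := fun i a a' b j =>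
    if cc i a b j ≠ 0 ∧ dlm_maj R V (θ i a b j - psiSum (θ i) a' a b j) then (1 : ℝ) else 0
    with hP
  have hW : ∀ c ∈ boxset k X' ×ˢ boxset k X', ∀ b ∈ boxset k X',
      (𝔼 n ∈ Ω, 𝔼 i, 𝔼 x : ZMod N, conj (cube (F n i) c.1 c.2 x) *
        ∏ ω, cjj ω (bphase X r (cc i (sel ω c.1 c.2) b)
          (fun j => -θ i (sel ω c.1 c.2) b j) x)).re ≤
        (𝔼 i, 𝔼 j ∈ range (N / X), P i c.1 c.2 b j) + η := by
    intro c hc b _
    rw [mem_product] at hc
    refine (Complex.re_le_norm _).trans ?_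
    have h3 := dlm_split hF X X' hX1 hLP c.1 c.2 hc.1 hc.2 r
      (fun i j => ∏ ω, cjj ω (cc i (sel ω c.1 c.2) b j))
      (fun i j => ∑ ω, sg ω * (-θ i (sel ω c.1 c.2) b j))
      (fun i j => dla_norm_prod_le _ _ (fun ω _ => by
        rw [dla_norm_cjj]
        exact dla_cc_norm _ _ _ _ _ _))
      (fun i j hj => prod_eq_zero (mem_univ (fun _ : Fin k => false)) (by
        have h4 : cc i (sel (fun _ : Fin k => false) c.1 c.2) b j = 0 :=
          dla_cc_out _ _ _ _ _ _ hj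
        rw [h4]
        unfold cjj
        split_ifs <;> simp))
    have h5 : 𝔼 n ∈ Ω, 𝔼 i, 𝔼 x : ZMod N, conj (cube (F n i) c.1 c.2 x) *
        ∏ ω, cjj ω (bphase X r (cc i (sel ω c.1 c.2) b)
          (fun j => -θ i (sel ω c.1 c.2) b j) x) =
        𝔼 n ∈ Ω, 𝔼 i, 𝔼 x : ZMod N, conj (cube (F n i) c.1 c.2 x) *
          bphase X r (fun j => ∏ ω, cjj ω (cc i (sel ω c.1 c.2) b j))
          (fun j => ∑ ω, sg ω * (-θ i (sel ω c.1 c.2) b j)) x := by
      refine expect_congr rfl (fun n _ => expect_congr rfl (fun i _ => expect_congr rfl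
        (fun x _ => ?_)))
      rw [dla_prod_bphase X r x (fun ω => cc i (sel ω c.1 c.2) b)
        (fun ω j => -θ i (sel ω c.1 c.2) b j)]
    rw [h5]
    refine h3.trans (add_le_add (expect_le_expect (fun i _ => expect_le_expect
      (fun j _ => ?_))) le_rfl)
    rw [hP]
    dsimp only
    by_cases h6 : (∏ ω, cjj ω (cc i (sel ω c.1 c.2) b j)) ≠ 0 ∧
        dlm_maj R V (∑ ω, sg ω * (-θ i (sel ω c.1 c.2) b j))
    · rw [if_pos h6, if_pos]
      refine ⟨?_, ?_⟩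
      · have h7 := (Finset.prod_ne_zero_iff.1 h6.1) (fun _ : Fin k => false) (mem_univ _)
        have h8 := dla_cjj_ne_zero _ _ h7
        have h9 : sel (fun _ : Fin k => false) c.1 c.2 = c.1 := by
          funext i
          simp [sel]
        rwa [h9] at h8
      · have h7 := h6.2
        rwa [dla_psi (θ i), dlm_maj_neg] at h7
    · rw [if_neg h6]
      split_ifs <;> norm_num
  have hsum : (β / 32) ^ (2 ^ k) / 2 ≤ 𝔼 c ∈ boxset k X' ×ˢ boxset k X', 𝔼 b ∈ boxset k X',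
      𝔼 i, 𝔼 j ∈ range (N / X), P i c.1 c.2 b j := by
    have h3 : (β / 32) ^ (2 ^ k) ≤ 𝔼 c ∈ boxset k X' ×ˢ boxset k X', 𝔼 b ∈ boxset k X',
      ((𝔼 i, 𝔼 j ∈ range (N / X), P i c.1 c.2 b j) + η) :=
      hy.trans (expect_le_expect (fun c hc => expect_le_expect (fun b hb => hW c hc b hb)))
    have h4 : 𝔼 c ∈ boxset k X' ×ˢ boxset k X', 𝔼 b ∈ boxset k X',
      ((𝔼 i, 𝔼 j ∈ range (N / X), P i c.1 c.2 b j) + η) =
        (𝔼 c ∈ boxset k X' ×ˢ boxset k X',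
        𝔼 b ∈ boxset k X', 𝔼 i, 𝔼 j ∈ range (N / X), P i c.1 c.2 b j) + η := by
      simp only [expect_add_distrib]
      rw [expect_const hne, expect_const (hne.product hne)]
    rw [h4] at h3
    linarith
  have hswap : 𝔼 c ∈ boxset k X' ×ˢ boxset k X', 𝔼 b ∈ boxset k X',
      𝔼 i, 𝔼 j ∈ range (N / X), P i c.1 c.2 b j = 𝔼 i, 𝔼 j ∈ range (N / X),
        𝔼 a' ∈ boxset k X', 𝔼 a ∈ boxset k X', 𝔼 b ∈ boxset k X', P i a a' b j := by
    have e1 : ∀ c ∈ boxset k X' ×ˢ boxset k X', 𝔼 b ∈ boxset k X',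
        𝔼 i, 𝔼 j ∈ range (N / X), P i c.1 c.2 b j =
        𝔼 i, 𝔼 b ∈ boxset k X', 𝔼 j ∈ range (N / X), P i c.1 c.2 b j :=
      fun c _ => expect_comm _ _ _
    rw [expect_congr rfl e1, expect_comm]
    refine expect_congr rfl (fun i _ => ?_)
    rw [expect_product (boxset k X') (boxset k X') (fun c => 𝔼 b ∈ boxset k X',
      𝔼 j ∈ range (N / X), P i c.1 c.2 b j)]
    rw [expect_comm (s := boxset k X') (t := boxset k X')]
    rw [expect_comm (s := range (N / X)) (t := boxset k X')]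
    refine expect_congr rfl (fun a' _ => ?_)
    rw [expect_comm (s := range (N / X)) (t := boxset k X')]
    refine expect_congr rfl (fun a _ => ?_)
    exact expect_comm _ _ _
  rw [hswap] at hsum
  have hch : ∀ (i : κ) (j : ℕ), ∃ a' ∈ boxset k X', 𝔼 a' ∈ boxset k X', 𝔼 a ∈ boxset k X',
      𝔼 b ∈ boxset k X', P i a a' b j ≤ 𝔼 a ∈ boxset k X', 𝔼 b ∈ boxset k X', P i a a' b j :=
    fun i j => dla_exists_ge (boxset k X') hne (fun a' => 𝔼 a ∈ boxset k X',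
      𝔼 b ∈ boxset k X', P i a a' b j)
  choose a' ha' hmax using hch
  refine ⟨r, θ, a', ha', ?_⟩
  have hfin : β / 16 * (𝔼 i, 𝔼 j ∈ range (N / X), 𝔼 a ∈ boxset k X', 𝔼 b ∈ boxset k X',
      P i a (a' i j) b j) ≤ 𝔼 i, 𝔼 j ∈ range (N / X), 𝔼 a ∈ boxset k X',
        𝔼 b ∈ boxset k X',
          (if dlm_maj R V (θ i a b j - psiSum (θ i) (a' i j) a b j) then
            ‖𝔼 t ∈ range X, cube (u i) a b (r + ((j * X + t : ℕ) : ZMod N)) *
              e (-(θ i a b j * t))‖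
          else 0) := by
    rw [mul_expect]
    refine expect_le_expect (fun i _ => ?_)
    rw [mul_expect]
    refine expect_le_expect (fun j _ => ?_)
    rw [mul_expect]
    refine expect_le_expect (fun a _ => ?_)
    rw [mul_expect]
    refine expect_le_expect (fun b _ => ?_)
    rw [hP]
    dsimp only
    by_cases h6 : cc i a b j ≠ 0 ∧ dlm_maj R V (θ i a b j - psiSum (θ i) (a' i j) a b j)
    · rw [if_pos h6, if_pos h6.2, mul_one]
      have hg : dla_good X r (cube (u i) a b) (θ0 (i, (a, b))) β j := dla_cc_ne h6.1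
      have h7 := dla_S_good hg
      have h8 := hg.2
      rw [← h7] at h8
      exact h8
    · rw [if_neg h6, mul_zero]
      split_ifs
      · exact norm_nonneg _
      · exact le_rfl
  refine le_trans ?_ hfin
  have h10 : (β / 32) ^ (2 ^ k) / 2 ≤ 𝔼 i, 𝔼 j ∈ range (N / X), 𝔼 a ∈ boxset k X',
      𝔼 b ∈ boxset k X', P i a (a' i j) b j :=
    hsum.trans (expect_le_expect (fun i _ => expect_le_expect (fun j _ => hmax i j)))
  calc (β / 32) ^ (2 ^ k + 1) = β / 16 * ((β / 32) ^ (2 ^ k) / 2) := by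
        rw [pow_succ]
        ring
    _ ≤ _ := mul_le_mul_of_nonneg_left h10 (by positivity)

end dlm_steps

/-- **Degree lowering with major frequencies, first half.** -/
theorem dl_A' (k : ℕ) (hk : 1 ≤ k) : ∀ n : ℕ, ∃ n2 : ℕ, ∀ n1 : ℕ, ∃ n3 : ℕ,
    ∀ (p : ℕ) [NeZero p] (κ ι : Type) [Fintype κ] [Nonempty κ] (Ω : Finset ι)
      (F : ι → κ → ZMod p → ℂ) (u : κ → ZMod p → ℂ) (δ : ℝ) (X X' : ℕ), Ω.Nonempty →
      (∀ n i x, ‖F n i x‖ ≤ 1) → (∀ i x, u i x = conj (𝔼 n ∈ Ω, F n i x)) →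
      0 < δ → δ ≤ 1 / 2 → 1 ≤ X → (X : ℝ) ≤ δ ^ n3 * p →
      δ ^ n ≤ 𝔼 i, Box (k + 2) X (u i) → 1 ≤ X' → (X' : ℝ) ≤ δ ^ n3 * X →
      LPhM Ω F k X' X (δ⁻¹ ^ n1) (δ⁻¹ ^ n1 / X) (δ ^ n2) →
      ∃ (r : ZMod p) (θ : κ → (Fin k → ℕ) → (Fin k → ℕ) → ℕ → ℝ) (a' : κ → ℕ → Fin k → ℕ),
        (∀ i j, a' i j ∈ boxset k X') ∧
        δ ^ n2 ≤ 𝔼 i, 𝔼 j ∈ range (p / X), 𝔼 a ∈ boxset k X', 𝔼 b ∈ boxset k X',
          (open scoped Classical in
          if (∃ q : ℕ, 1 ≤ q ∧ (q : ℝ) ≤ δ⁻¹ ^ n1 ∧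
              dint (q * (θ i a b j - psiSum (θ i) (a' i j) a b j)) ≤ δ⁻¹ ^ n1 / X) then
            ‖𝔼 t ∈ range X, cube (u i) a b (r + ((j * X + t : ℕ) : ZMod p)) *
              e (-(θ i a b j * t))‖
          else 0) := by
  intro n
  refine ⟨(n + 5) * (2 ^ k + 1) + 0, fun n1 => ⟨n + k + 3, ?_⟩⟩
  intro p _ κ ι _ _ Ω F u δ X X' hΩ hF hrep h0 h1 hX1 hXN hBox hX' hX'X hLP
  have hu : ∀ i x, ‖u i x‖ ≤ 1 := by
    intro i x
    rw [hrep, RCLike.norm_conj]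
    exact dla_norm_expect_le_const _ _ _ zero_le_one (fun n _ => hF n i x)
  have hX0 : (0 : ℝ) < X := by exact_mod_cast hX1
  have hN0 : (0 : ℝ) < p := by exact_mod_cast Nat.pos_of_ne_zero (NeZero.ne p)
  have h2 : δ ^ (n + k + 3) ≤ 1 / 2 := by
    calc δ ^ (n + k + 3) ≤ δ ^ 1 := pow_le_pow_of_le_one h0.le (by linarith) (by omega)
      _ = δ := pow_one δ
      _ ≤ 1 / 2 := h1
  have h3 : X' ≤ X := by
    have : (X' : ℝ) ≤ X := by
      refine hX'X.trans ?_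
      calc δ ^ (n + k + 3) * (X : ℝ) ≤ 1 / 2 * X := mul_le_mul_of_nonneg_right h2 hX0.le
        _ ≤ X := by linarith
    exact_mod_cast this
  have h4 : 2 * X ≤ p := by
    have : 2 * (X : ℝ) ≤ p := by
      have h5 : δ ^ (n + k + 3) * (p : ℝ) ≤ 1 / 2 * p := mul_le_mul_of_nonneg_right h2 hN0.le
      linarith
    exact_mod_cast this
  have h6 := dla_num3 h0 h1 n k 0
  have hβ : 0 < δ ^ n := pow_pos h0 n
  have hβ1 : δ ^ n ≤ 1 := pow_le_one₀ h0.le (by linarith)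
  obtain ⟨r, θ, a', ha', hfin⟩ := dlm_main hk hF hrep hu X X' hX' h3 h4 hβ hBox
    (dla_num1 h0 h1 n k hX0 hX'X) (dla_num2 h0 h1 n k hN0 hXN)
    (by
      refine h6.trans ?_
      rw [pow_succ]
      have h7 : 0 < (δ ^ n / 32) ^ 2 ^ k := by positivity
      calc (δ ^ n / 32) ^ 2 ^ k * (δ ^ n / 32) ≤ (δ ^ n / 32) ^ 2 ^ k * (1 / 2) :=
            mul_le_mul_of_nonneg_left (by linarith) h7.le
        _ = (δ ^ n / 32) ^ 2 ^ k / 2 := by ring) hLP
  exact ⟨r, θ, a', ha', h6.trans hfin⟩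

end

end Pool.Agent.Helper67.NX2
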