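import Pool.Agent.Helper67.NX2.DefsB

/-! # Project NX2, B6: a moment lemma on product spaces -/

set_option autoImplicit false

open Finset
open scoped BigOperators ComplexConjugate

namespace Pool.Agent.Helper67.NX2

open Pool.Agent.Helper57.NX

noncomputable section

section

variable {ι : Type} [Fintype ι] [DecidableEq ι] {X : ι → Type} [∀ i, Fintype (X i)]
  [∀ i, Nonempty (X i)]

/-- averaging over the coordinates outside `U` -/
private lemma ll_expect_mixo (U : Finset ι) (φ : (∀ i, X i) → ℝ) :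
    𝔼 ω : ∀ i, X i, 𝔼 ω' : ∀ i, X i, φ (mixo U ω ω') = 𝔼 ω : ∀ i, X i, φ ω := by
  classical
  have h1 : 𝔼 ω : ∀ i, X i, 𝔼 ω' : ∀ i, X i, φ (mixo U ω ω') =
      𝔼 p : (∀ i, X i) × (∀ i, X i), φ (mixo U p.1 p.2) := by
    rw [← univ_product_univ, expect_product]
  have h2 : 𝔼 ω : ∀ i, X i, φ ω =
      𝔼 p : (∀ i, X i) × (∀ i, X i), φ p.1 := by
    rw [← univ_product_univ, expect_product]
    apply expect_congr rfl
    intro ω _
    exact (Fintype.expect_const _).symm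
  rw [h1, h2]
  apply Fintype.expect_bijective (fun p : (∀ i, X i) × (∀ i, X i) => (mixo U p.1 p.2, mixo U p.2 p.1))
  · have hinv : Function.Involutive
        (fun p : (∀ i, X i) × (∀ i, X i) => (mixo U p.1 p.2, mixo U p.2 p.1)) := by
      rintro ⟨a, b⟩
      simp only [Prod.mk.injEq]
      constructor <;>
      · funext i
        simp only [mixo]
        split_ifs <;> rfl
    exact hinv.bijective
  · intro p
    rfl

private lemma ll_indep {S T : Finset ι} (hST : Disjoint S T) {φ ψ : (∀ i, X i) → ℝ}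
    (hφ : DepOn S φ) (hψ : DepOn T ψ) :
    𝔼 ω : ∀ i, X i, φ ω * ψ ω = (𝔼 ω : ∀ i, X i, φ ω) * 𝔼 ω : ∀ i, X i, ψ ω := by
  classical
  rw [← ll_expect_mixo S (fun ω => φ ω * ψ ω), expect_mul_expect]
  apply expect_congr rfl
  intro ω _
  apply expect_congr rfl
  intro ω' _
  congr 1
  · apply hφ
    intro i hi
    simp [mixo, hi]
  · apply hψ
    intro i hi
    have : i ∉ S := fun h => (Finset.disjoint_left.1 hST h) hi
    simp [mixo, this]

omit [Fintype ι] [∀ i, Fintype (X i)] [∀ i, Nonempty (X i)] in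
private lemma ll_depOn_prod {κ : Type} (s : Finset κ) (E : κ → Finset ι)
    (ψ : κ → (∀ i, X i) → ℝ) (hψ : ∀ a ∈ s, DepOn (E a) (ψ a)) :
    DepOn (s.biUnion E) (fun ω => ∏ a ∈ s, ψ a ω) := by
  intro ω ω' h
  apply prod_congr rfl
  intro a ha
  apply hψ a ha
  intro i hi
  exact h i (mem_biUnion.2 ⟨a, ha, hi⟩)

private lemma ll_indep_prod {κ : Type} [DecidableEq κ] (s : Finset κ) (E : κ → Finset ι)
    (ψ : κ → (∀ i, X i) → ℝ) (hψ : ∀ a ∈ s, DepOn (E a) (ψ a))
    (hE : ∀ a ∈ s, ∀ b ∈ s, a ≠ b → Disjoint (E a) (E b)) :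
    𝔼 ω : ∀ i, X i, ∏ a ∈ s, ψ a ω = ∏ a ∈ s, 𝔼 ω : ∀ i, X i, ψ a ω := by
  classical
  induction s using Finset.induction_on with
  | empty => simp
  | insert a s ha ih =>
    simp only [prod_insert ha]
    rw [← ih (fun b hb => hψ b (mem_insert_of_mem hb))
      (fun b hb c hc => hE b (mem_insert_of_mem hb) c (mem_insert_of_mem hc))]
    apply ll_indep _ (hψ a (mem_insert_self a s))
      (ll_depOn_prod s E ψ (fun b hb => hψ b (mem_insert_of_mem hb)))
    rw [disjoint_biUnion_right]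
    intro b hb
    apply hE a (mem_insert_self a s) b (mem_insert_of_mem hb)
    rintro rfl
    exact ha hb

/-- Cauchy-Schwarz for a sum of expectations -/
private lemma ll_cs {κ Ω : Type} [Fintype Ω] (s : Finset κ) (P Q : κ → Ω → ℝ) :
    ∑ E ∈ s, 𝔼 ω : Ω, P E ω * Q E ω ≤
      √(∑ E ∈ s, 𝔼 ω : Ω, P E ω ^ 2) * √(∑ E ∈ s, 𝔼 ω : Ω, Q E ω ^ 2) := by
  have key : ∀ F : κ → Ω → ℝ, ∑ E ∈ s, 𝔼 ω : Ω, F E ω =
      (∑ x ∈ s ×ˢ (univ : Finset Ω), F x.1 x.2) / Fintype.card Ω := by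
    intro F
    rw [sum_product, sum_div]
    apply sum_congr rfl
    intro E _
    rw [Fintype.expect_eq_sum_div_card]
  rw [key, key (fun E ω => P E ω ^ 2), key (fun E ω => Q E ω ^ 2), Real.sqrt_div' _ (by positivity),
    Real.sqrt_div' _ (by positivity), div_mul_div_comm, Real.mul_self_sqrt (by positivity)]
  exact div_le_div_of_nonneg_right (Real.sum_mul_le_sqrt_mul_sqrt _ _ _) (by positivity)

/-- the points covered exactly once by the functions `1, …, n` -/
private def llA {n : ℕ} (Ss : Fin (n + 1) → Finset ι) : Finset ι :=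
  univ.filter (fun i => (univ.filter (fun a : Fin n => i ∈ Ss a.succ)).card = 1)

/-- the validity condition -/
private def llV {n : ℕ} (r : ℕ) (Ss : Fin n → Finset ι) : Prop :=
  (∀ a, (Ss a).card ≤ r) ∧ ∀ i, (univ.filter (fun a => i ∈ Ss a)).card ≠ 1

omit [Fintype ι] in
private lemma ll_count {n : ℕ} (Ss : Fin (n + 1) → Finset ι) (i : ι) :
    (univ.filter (fun a => i ∈ Ss a)).card =
      (if i ∈ Ss 0 then 1 else 0) + (univ.filter (fun a : Fin n => i ∈ Ss a.succ)).card := by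
  rw [card_filter, card_filter, Fin.sum_univ_succ]

private lemma ll_A_sub {n r : ℕ} {Ss : Fin (n + 1) → Finset ι} (h : llV r Ss) :
    llA Ss ⊆ Ss 0 := by
  intro i hi
  have h1 := (mem_filter.1 hi).2
  by_contra h0
  have h2 := h.2 i
  rw [ll_count, if_neg h0, h1] at h2
  exact h2 rfl

private lemma ll_B_sub {n r : ℕ} {Ss : Fin (n + 1) → Finset ι} (h : llV r Ss) :
    Ss 0 \ llA Ss ⊆ univ.biUnion (fun a : Fin n => Ss a.succ \ llA Ss) := by
  intro i hi
  obtain ⟨h0, hA⟩ := mem_sdiff.1 hi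
  have h2 := h.2 i
  rw [ll_count, if_pos h0] at h2
  have h3 : (univ.filter (fun a : Fin n => i ∈ Ss a.succ)).card ≠ 0 := by omega
  obtain ⟨a, ha⟩ := card_ne_zero.1 h3
  exact mem_biUnion.2 ⟨a, mem_univ _, mem_sdiff.2 ⟨(mem_filter.1 ha).2, hA⟩⟩

private lemma ll_s_valid {n r : ℕ} {Ss : Fin (n + 1) → Finset ι} (h : llV r Ss) :
    llV r (fun a : Fin n => Ss a.succ \ llA Ss) := by
  refine ⟨fun a => (card_le_card sdiff_subset).trans (h.1 a.succ), fun i => ?_⟩
  by_cases hA : i ∈ llA Ss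
  · have : (univ.filter (fun a : Fin n => i ∈ Ss a.succ \ llA Ss)) = ∅ := by
      apply filter_eq_empty_iff.2
      intro a _ ha
      exact (mem_sdiff.1 ha).2 hA
    rw [this]
    simp
  · have : (univ.filter (fun a : Fin n => i ∈ Ss a.succ \ llA Ss)) =
        (univ.filter (fun a : Fin n => i ∈ Ss a.succ)) := by
      apply filter_congr
      intro a _
      rw [mem_sdiff]
      exact ⟨fun h => h.1, fun h => ⟨h, hA⟩⟩
    rw [this]
    intro h1
    exact hA (mem_filter.2 ⟨mem_univ _, h1⟩)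

private lemma ll_A_once {n : ℕ} {Ss : Fin (n + 1) → Finset ι} {i : ι} (hi : i ∈ llA Ss)
    {a b : Fin n} (ha : i ∈ Ss a.succ) (hb : i ∈ Ss b.succ) : a = b := by
  have h1 := (mem_filter.1 hi).2
  obtain ⟨c, hc⟩ := card_eq_one.1 h1
  have h2 : a ∈ ({c} : Finset (Fin n)) := hc ▸ mem_filter.2 ⟨mem_univ _, ha⟩
  have h3 : b ∈ ({c} : Finset (Fin n)) := hc ▸ mem_filter.2 ⟨mem_univ _, hb⟩
  rw [mem_singleton] at h2 h3
  rw [h2, h3]

/-- the square of the new function -/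
private def llH (r : ℕ) (f : Finset ι → (∀ i, X i) → ℝ) (S' : Finset ι) (ω : ∀ i, X i) : ℝ :=
  ∑ S ∈ univ.filter (fun S : Finset ι => S' ⊆ S ∧ S.card ≤ r),
    𝔼 ω' : ∀ i, X i, f S (mixo S' ω ω') ^ 2

omit [∀ i, Nonempty (X i)] in
private lemma llH_nonneg (r : ℕ) (f : Finset ι → (∀ i, X i) → ℝ) (S' : Finset ι)
    (ω : ∀ i, X i) : 0 ≤ llH r f S' ω :=
  sum_nonneg fun _ _ => expect_nonneg fun _ _ => sq_nonneg _

omit [∀ i, Nonempty (X i)] in
private lemma llH_depOn (r : ℕ) (f : Finset ι → (∀ i, X i) → ℝ) (S' : Finset ι) :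
    DepOn S' (llH r f S') := by
  intro ω ω' h
  have : ∀ ω'', mixo S' ω ω'' = mixo S' ω' ω'' := by
    intro ω''
    funext i
    simp only [mixo]
    split_ifs with hi
    · exact h i hi
    · rfl
  simp only [llH, this]

/-- the sum bound for the new functions -/
private lemma llH_sum (r : ℕ) (f : Finset ι → (∀ i, X i) → ℝ) (V : ℝ)
    (hf : ∀ (B : Finset ι) ω, ∑ S ∈ univ.filter (fun S : Finset ι => B ⊆ S ∧ S.card ≤ r),
      𝔼 ω' : ∀ i, X i, f S (mixo B ω ω') ^ 2 ≤ V ^ 2) (B : Finset ι) (ω : ∀ i, X i) :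
    ∑ S' ∈ univ.filter (fun S' : Finset ι => B ⊆ S' ∧ S'.card ≤ r),
      𝔼 ω' : ∀ i, X i, llH r f S' (mixo B ω ω') ≤ 2 ^ r * V ^ 2 := by
  classical
  have h1 : ∀ S' ∈ univ.filter (fun S' : Finset ι => B ⊆ S' ∧ S'.card ≤ r),
      𝔼 ω' : ∀ i, X i, llH r f S' (mixo B ω ω') =
        ∑ S ∈ univ.filter (fun S : Finset ι => S' ⊆ S ∧ S.card ≤ r),
          𝔼 ω' : ∀ i, X i, f S (mixo B ω ω') ^ 2 := by
    intro S' hS'
    have hB : B ⊆ S' := (mem_filter.1 hS').2.1
    simp only [llH]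
    rw [expect_sum_comm]
    apply sum_congr rfl
    intro S _
    rw [← ll_expect_mixo S' (fun ω' => f S (mixo B ω ω') ^ 2)]
    apply expect_congr rfl
    intro ω' _
    apply expect_congr rfl
    intro ω'' _
    congr 2
    funext i
    simp only [mixo]
    by_cases hi : i ∈ B
    · simp [hi, hB hi]
    · simp [hi]
  rw [sum_congr rfl h1]
  have h2 : ∑ S' ∈ univ.filter (fun S' : Finset ι => B ⊆ S' ∧ S'.card ≤ r),
      ∑ S ∈ univ.filter (fun S : Finset ι => S' ⊆ S ∧ S.card ≤ r),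
          𝔼 ω' : ∀ i, X i, f S (mixo B ω ω') ^ 2 ≤
      ∑ S ∈ univ.filter (fun S : Finset ι => B ⊆ S ∧ S.card ≤ r),
        ∑ _S' ∈ S.powerset, 𝔼 ω' : ∀ i, X i, f S (mixo B ω ω') ^ 2 := by
    rw [sum_comm' (t' := univ.filter (fun S : Finset ι => B ⊆ S ∧ S.card ≤ r))
      (s' := fun S => S.powerset.filter (fun S' => B ⊆ S'))]
    · apply sum_le_sum
      intro S _
      apply sum_le_sum_of_subset_of_nonneg (filter_subset _ _)
      intro _ _ _
      exact expect_nonneg fun _ _ => sq_nonneg _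
    · intro S' S
      simp only [mem_filter, mem_univ, true_and, mem_powerset]
      constructor
      · rintro ⟨⟨h1, h2⟩, h3, h4⟩
        exact ⟨⟨h3, h1⟩, h1.trans h3, h4⟩
      · rintro ⟨⟨h1, h2⟩, h3, h4⟩
        exact ⟨⟨h2, (card_le_card h1).trans h4⟩, h1, h4⟩
  refine h2.trans ?_
  calc ∑ S ∈ univ.filter (fun S : Finset ι => B ⊆ S ∧ S.card ≤ r),
        ∑ _S' ∈ S.powerset, 𝔼 ω' : ∀ i, X i, f S (mixo B ω ω') ^ 2
      ≤ ∑ S ∈ univ.filter (fun S : Finset ι => B ⊆ S ∧ S.card ≤ r),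
        2 ^ r * 𝔼 ω' : ∀ i, X i, f S (mixo B ω ω') ^ 2 := by
        apply sum_le_sum
        intro S hS
        rw [sum_const, card_powerset, nsmul_eq_mul]
        apply mul_le_mul_of_nonneg_right _ (expect_nonneg fun _ _ => sq_nonneg _)
        push_cast
        exact pow_le_pow_right₀ (by norm_num) (mem_filter.1 hS).2.2
    _ ≤ 2 ^ r * V ^ 2 := by
        rw [← mul_sum]
        exact mul_le_mul_of_nonneg_left (hf B ω) (by positivity)

private lemma ll_zero_eq {n r : ℕ} {Ss : Fin (n + 1) → Finset ι} (h : llV r Ss) {B : Finset ι}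
    (hB : Ss 0 \ llA Ss = B) : Ss 0 = B ∪ llA Ss := by
  rw [← hB, sdiff_union_of_subset (ll_A_sub h)]

private lemma ll_tail_inj {n r : ℕ} {B : Finset ι} {F : Finset (Fin (n + 1) → Finset ι)}
    (hF : ∀ Ss ∈ F, llV r Ss ∧ Ss 0 \ llA Ss = B) :
    Set.InjOn (fun (Ss : Fin (n + 1) → Finset ι) (a : Fin n) => Ss a.succ) (F : Set _) := by
  intro Ss hSs Ts hTs hST
  have h1 : ∀ a : Fin n, Ss a.succ = Ts a.succ := fun a => congrFun hST a
  have h2 : llA Ss = llA Ts := by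
    simp only [llA, h1]
  have h0 : Ss 0 = Ts 0 := by
    rw [ll_zero_eq (hF Ss hSs).1 (hF Ss hSs).2, ll_zero_eq (hF Ts hTs).1 (hF Ts hTs).2, h2]
  funext a
  refine Fin.cases h0 (fun b => h1 b) a

/-- first factor -/
private lemma ll_P {n r : ℕ} (h : Fin (n + 1) → Finset ι → (∀ i, X i) → ℝ)
    (hd : ∀ a S, DepOn S (h a S)) (S' : Fin n → Finset ι) (B : Finset ι)
    (F : Finset (Fin (n + 1) → Finset ι))
    (hF : ∀ Ss ∈ F, llV r Ss ∧ Ss 0 \ llA Ss = B)
    (hS : ∀ Ss ∈ F, ∀ a : Fin n, Ss a.succ \ llA Ss = S' a) (ω : ∀ i, X i) :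
    ∑ Ss ∈ F, 𝔼 ω' : ∀ i, X i, (∏ a : Fin n, h a.succ (Ss a.succ)
      (mixo (univ.biUnion S') ω ω')) ^ 2 ≤ ∏ a : Fin n, llH r (h a.succ) (S' a) ω := by
  classical
  have h1 : ∀ Ss ∈ F, 𝔼 ω' : ∀ i, X i, (∏ a : Fin n, h a.succ (Ss a.succ)
      (mixo (univ.biUnion S') ω ω')) ^ 2 =
      ∏ a : Fin n, 𝔼 ω' : ∀ i, X i, h a.succ (Ss a.succ) (mixo (S' a) ω ω') ^ 2 := by
    intro Ss hSs
    rw [← ll_indep_prod univ (fun a : Fin n => Ss a.succ ∩ llA Ss)]
    · apply expect_congr rfl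
      intro ω' _
      rw [← prod_pow]
      apply prod_congr rfl
      intro a _
      congr 1
      apply hd
      intro i hi
      by_cases hA : i ∈ llA Ss
      · have h2 : i ∉ univ.biUnion S' := by
          intro h3
          obtain ⟨b, -, hb⟩ := mem_biUnion.1 h3
          rw [← hS Ss hSs b] at hb
          exact (mem_sdiff.1 hb).2 hA
        have h4 : i ∉ S' a := fun h5 => h2 (mem_biUnion.2 ⟨a, mem_univ _, h5⟩)
        simp only [mixo, if_neg h2, if_neg h4]
      · have h4 : i ∈ S' a := by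
          rw [← hS Ss hSs a]
          exact mem_sdiff.2 ⟨hi, hA⟩
        have h2 : i ∈ univ.biUnion S' := mem_biUnion.2 ⟨a, mem_univ _, h4⟩
        simp only [mixo, if_pos h2, if_pos h4]
    · intro a _ ω₁ ω₂ h12
      have : h a.succ (Ss a.succ) (mixo (S' a) ω ω₁) = h a.succ (Ss a.succ) (mixo (S' a) ω ω₂) := by
        apply hd
        intro i hi
        by_cases hA : i ∈ llA Ss
        · have h3 := h12 i (mem_inter.2 ⟨hi, hA⟩)
          simp only [mixo, h3]
        · have h4 : i ∈ S' a := by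
            rw [← hS Ss hSs a]
            exact mem_sdiff.2 ⟨hi, hA⟩
          simp only [mixo, if_pos h4]
      simp only [this]
    · intro a _ b _ hab
      rw [disjoint_left]
      intro i hi hj
      exact hab (ll_A_once (mem_inter.1 hi).2 (mem_inter.1 hi).1 (mem_inter.1 hj).1)
  rw [sum_congr rfl h1]
  simp only [llH]
  rw [prod_univ_sum]
  rw [← sum_image (s := F) (g := fun (Ss : Fin (n + 1) → Finset ι) (a : Fin n) => Ss a.succ)
    (f := fun E : Fin n → Finset ι =>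
      ∏ a : Fin n, 𝔼 ω' : ∀ i, X i, h a.succ (E a) (mixo (S' a) ω ω') ^ 2) (ll_tail_inj hF)]
  apply sum_le_sum_of_subset_of_nonneg
  · intro E hE
    obtain ⟨Ss, hSs, rfl⟩ := mem_image.1 hE
    rw [Fintype.mem_piFinset]
    intro a
    refine mem_filter.2 ⟨mem_univ _, ?_, (hF Ss hSs).1.1 a.succ⟩
    rw [← hS Ss hSs a]
    exact sdiff_subset
  · intro E _ _
    exact prod_nonneg fun a _ => expect_nonneg fun _ _ => sq_nonneg _

omit [∀ i, Nonempty (X i)] in
/-- second factor -/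
private lemma ll_Q {n r : ℕ} (h : Fin (n + 1) → Finset ι → (∀ i, X i) → ℝ)
    (hd : ∀ a S, DepOn S (h a S)) (V0 : ℝ)
    (hV : ∀ (B : Finset ι) ω, ∑ S ∈ univ.filter (fun S : Finset ι => B ⊆ S ∧ S.card ≤ r),
      𝔼 ω' : ∀ i, X i, h 0 S (mixo B ω ω') ^ 2 ≤ V0 ^ 2)
    (S' : Fin n → Finset ι) (B : Finset ι)
    (F : Finset (Fin (n + 1) → Finset ι))
    (hF : ∀ Ss ∈ F, llV r Ss ∧ Ss 0 \ llA Ss = B)
    (hS : ∀ Ss ∈ F, ∀ a : Fin n, Ss a.succ \ llA Ss = S' a) (ω : ∀ i, X i) :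
    ∑ Ss ∈ F, 𝔼 ω' : ∀ i, X i, h 0 (Ss 0) (mixo (univ.biUnion S') ω ω') ^ 2 ≤
      2 ^ (n * r) * V0 ^ 2 := by
  classical
  have h1 : ∀ Ss ∈ F, 𝔼 ω' : ∀ i, X i, h 0 (Ss 0) (mixo (univ.biUnion S') ω ω') ^ 2 =
      𝔼 ω' : ∀ i, X i, h 0 (Ss 0) (mixo B ω ω') ^ 2 := by
    intro Ss hSs
    apply expect_congr rfl
    intro ω' _
    congr 1
    apply hd
    intro i hi
    have hB := (hF Ss hSs).2
    by_cases hA : i ∈ llA Ss
    · have h2 : i ∉ univ.biUnion S' := by
        intro h3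
        obtain ⟨b, -, hb⟩ := mem_biUnion.1 h3
        rw [← hS Ss hSs b] at hb
        exact (mem_sdiff.1 hb).2 hA
      have h4 : i ∉ B := by
        rw [← hB]
        exact fun h5 => (mem_sdiff.1 h5).2 hA
      simp only [mixo, if_neg h2, if_neg h4]
    · have h4 : i ∈ B := by
        rw [← hB]
        exact mem_sdiff.2 ⟨hi, hA⟩
      have h2 : i ∈ univ.biUnion S' := by
        have h5 := ll_B_sub (hF Ss hSs).1 (mem_sdiff.2 ⟨hi, hA⟩)
        obtain ⟨b, -, hb⟩ := mem_biUnion.1 h5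
        exact mem_biUnion.2 ⟨b, mem_univ _, by rw [← hS Ss hSs b]; exact hb⟩
      simp only [mixo, if_pos h2, if_pos h4]
  rw [sum_congr rfl h1]
  have hmaps : ∀ Ss ∈ F, Ss 0 ∈ univ.filter (fun S : Finset ι => B ⊆ S ∧ S.card ≤ r) := by
    intro Ss hSs
    refine mem_filter.2 ⟨mem_univ _, ?_, (hF Ss hSs).1.1 0⟩
    rw [← (hF Ss hSs).2]
    exact sdiff_subset
  rw [← sum_fiberwise_of_maps_to hmaps]
  calc ∑ S ∈ univ.filter (fun S : Finset ι => B ⊆ S ∧ S.card ≤ r),
        ∑ Ss ∈ F.filter (fun Ss => Ss 0 = S), 𝔼 ω' : ∀ i, X i, h 0 (Ss 0) (mixo B ω ω') ^ 2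
      ≤ ∑ S ∈ univ.filter (fun S : Finset ι => B ⊆ S ∧ S.card ≤ r),
        2 ^ (n * r) * 𝔼 ω' : ∀ i, X i, h 0 S (mixo B ω ω') ^ 2 := by
        apply sum_le_sum
        intro S hS2
        have h2 : ∑ Ss ∈ F.filter (fun Ss => Ss 0 = S),
            𝔼 ω' : ∀ i, X i, h 0 (Ss 0) (mixo B ω ω') ^ 2 =
            ((F.filter (fun Ss => Ss 0 = S)).card : ℝ) *
              𝔼 ω' : ∀ i, X i, h 0 S (mixo B ω ω') ^ 2 := by
          rw [← nsmul_eq_mul, ← sum_const]
          apply sum_congr rfl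
          intro Ss hSs
          rw [(mem_filter.1 hSs).2]
        rw [h2]
        apply mul_le_mul_of_nonneg_right _ (expect_nonneg fun _ _ => sq_nonneg _)
        have h3 : (F.filter (fun Ss => Ss 0 = S)).card ≤
            (Fintype.piFinset (fun _ : Fin n => S.powerset)).card := by
          apply card_le_card_of_injOn
            (fun (Ss : Fin (n + 1) → Finset ι) (a : Fin n) => Ss a.succ \ S' a)
          · intro Ss hSs
            obtain ⟨hSs1, hSs2⟩ := mem_filter.1 (mem_coe.1 hSs)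
            rw [mem_coe, Fintype.mem_piFinset]
            intro a
            rw [mem_powerset, ← hSs2]
            intro i hi
            obtain ⟨hi1, hi2⟩ := mem_sdiff.1 hi
            rw [← hS Ss hSs1 a] at hi2
            apply ll_A_sub (hF Ss hSs1).1
            by_contra hA
            exact hi2 (mem_sdiff.2 ⟨hi1, hA⟩)
          · intro Ss hSs Ts hTs hST
            obtain ⟨hSs1, hSs2⟩ := mem_filter.1 (mem_coe.1 hSs)
            obtain ⟨hTs1, hTs2⟩ := mem_filter.1 (mem_coe.1 hTs)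
            apply ll_tail_inj hF (mem_coe.2 hSs1) (mem_coe.2 hTs1)
            funext a
            have h4 : Ss a.succ \ S' a = Ts a.succ \ S' a := congrFun hST a
            have h5 : S' a ⊆ Ss a.succ := by rw [← hS Ss hSs1 a]; exact sdiff_subset
            have h6 : S' a ⊆ Ts a.succ := by rw [← hS Ts hTs1 a]; exact sdiff_subset
            show Ss a.succ = Ts a.succ
            rw [← sdiff_union_of_subset h5, ← sdiff_union_of_subset h6, h4]
        rw [Fintype.card_piFinset] at h3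
        simp only [card_powerset, prod_const, card_univ, Fintype.card_fin] at h3
        have h4 : (2 ^ S.card) ^ n ≤ 2 ^ (n * r) := by
          rw [← pow_mul, mul_comm]
          exact Nat.pow_le_pow_right (by norm_num) (Nat.mul_le_mul_left _ (mem_filter.1 hS2).2.2)
        exact_mod_cast h3.trans h4
    _ ≤ 2 ^ (n * r) * V0 ^ 2 := by
        rw [← mul_sum]
        exact mul_le_mul_of_nonneg_left (hV B ω) (by positivity)

/-- the sum over a fibre -/
private lemma ll_fibre {n r : ℕ} (h : Fin (n + 1) → Finset ι → (∀ i, X i) → ℝ)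
    (hd : ∀ a S, DepOn S (h a S)) (V0 : ℝ) (hV0 : 0 ≤ V0)
    (hV : ∀ (B : Finset ι) ω, ∑ S ∈ univ.filter (fun S : Finset ι => B ⊆ S ∧ S.card ≤ r),
      𝔼 ω' : ∀ i, X i, h 0 S (mixo B ω ω') ^ 2 ≤ V0 ^ 2)
    (S' : Fin n → Finset ι) (B : Finset ι)
    (F : Finset (Fin (n + 1) → Finset ι))
    (hF : ∀ Ss ∈ F, llV r Ss ∧ Ss 0 \ llA Ss = B)
    (hS : ∀ Ss ∈ F, ∀ a : Fin n, Ss a.succ \ llA Ss = S' a) :
    ∑ Ss ∈ F, 𝔼 ω : ∀ i, X i, ∏ a, h a (Ss a) ω ≤
      2 ^ (n * r) * V0 * 𝔼 ω : ∀ i, X i, ∏ a : Fin n, √(llH r (h a.succ) (S' a) ω) := by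
  classical
  have h1 : ∑ Ss ∈ F, 𝔼 ω : ∀ i, X i, ∏ a, h a (Ss a) ω =
      𝔼 ω : ∀ i, X i, ∑ Ss ∈ F, 𝔼 ω' : ∀ i, X i,
        (∏ a : Fin n, h a.succ (Ss a.succ) (mixo (univ.biUnion S') ω ω')) *
          h 0 (Ss 0) (mixo (univ.biUnion S') ω ω') := by
    rw [expect_sum_comm]
    apply sum_congr rfl
    intro Ss _
    rw [← ll_expect_mixo (univ.biUnion S')]
    apply expect_congr rfl
    intro ω _
    apply expect_congr rfl
    intro ω' _
    rw [Fin.prod_univ_succ, mul_comm]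
  rw [h1, mul_expect]
  apply expect_le_expect
  intro ω _
  refine (ll_cs F _ _).trans ?_
  have h2 := ll_P h hd S' B F hF hS ω
  have h3 := ll_Q h hd V0 hV S' B F hF hS ω
  have h4 : √(∏ a : Fin n, llH r (h a.succ) (S' a) ω) =
      ∏ a : Fin n, √(llH r (h a.succ) (S' a) ω) := by
    rw [Real.sqrt_eq_rpow, ← Real.finsetProd_rpow _ _ (fun a _ => llH_nonneg _ _ _ _)]
    simp only [Real.sqrt_eq_rpow]
  have h5 : √(2 ^ (n * r) * V0 ^ 2) ≤ 2 ^ (n * r) * V0 := by
    apply Real.sqrt_le_iff.2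
    refine ⟨by positivity, ?_⟩
    rw [mul_pow]
    apply mul_le_mul_of_nonneg_right _ (sq_nonneg _)
    have : (1 : ℝ) ≤ 2 ^ (n * r) := one_le_pow₀ (by norm_num)
    nlinarith
  calc _ ≤ √(∏ a : Fin n, llH r (h a.succ) (S' a) ω) * √(2 ^ (n * r) * V0 ^ 2) :=
        mul_le_mul (Real.sqrt_le_sqrt h2) (Real.sqrt_le_sqrt h3) (Real.sqrt_nonneg _)
          (Real.sqrt_nonneg _)
    _ ≤ (∏ a : Fin n, √(llH r (h a.succ) (S' a) ω)) * (2 ^ (n * r) * V0) := by
        rw [h4]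
        exact mul_le_mul_of_nonneg_left h5 (prod_nonneg fun _ _ => Real.sqrt_nonneg _)
    _ = 2 ^ (n * r) * V0 * ∏ a : Fin n, √(llH r (h a.succ) (S' a) ω) := by ring

end

/-! ## B6 Lemma L -/
theorem lemL (n r : ℕ) : ∃ K : ℝ, 0 ≤ K ∧ ∀ (ι : Type) [Fintype ι] [DecidableEq ι]
    (X : ι → Type) [∀ i, Fintype (X i)] [∀ i, Nonempty (X i)]
    (h : Fin n → Finset ι → (∀ i, X i) → ℝ) (V : Fin n → ℝ),
    (∀ a S ω, 0 ≤ h a S ω) → (∀ a S, DepOn S (h a S)) → (∀ a, 0 ≤ V a) →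
    (∀ a (B : Finset ι) ω, ∑ S ∈ univ.filter (fun S : Finset ι => B ⊆ S ∧ S.card ≤ r),
      𝔼 ω' : ∀ i, X i, h a S (mixo B ω ω') ^ 2 ≤ V a ^ 2) →
    ∑ Ss ∈ univ.filter (fun Ss : Fin n → Finset ι => (∀ a, (Ss a).card ≤ r) ∧
        ∀ i, (univ.filter (fun a => i ∈ Ss a)).card ≠ 1),
      𝔼 ω : ∀ i, X i, ∏ a, h a (Ss a) ω ≤ K * ∏ a, V a := by
  induction n with
  | zero =>
    refine ⟨1, zero_le_one, ?_⟩
    intro ι _ _ X _ _ h V _ _ _ _
    simp
  | succ n ih =>
    obtain ⟨K, hK, ih⟩ := ih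
    refine ⟨2 ^ (n * r) * 2 ^ (n * r) * (K * (2 ^ r) ^ n), by positivity, ?_⟩
    intro ι _ _ X _ _ h V hn hd hV0 hV
    have ih1 := ih ι X (fun a S ω => √(llH r (h a.succ) S ω)) (fun a => 2 ^ r * V a.succ)
      (fun a S ω => Real.sqrt_nonneg _)
      (by
        intro a S ω ω' hω
        have := llH_depOn r (h a.succ) S ω ω' hω
        simp only [this])
      (fun a => mul_nonneg (by positivity) (hV0 _))
      (by
        intro a B ω
        have h1 := llH_sum r (h a.succ) (V a.succ) (hV a.succ) B ω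
        simp only [Real.sq_sqrt (llH_nonneg _ _ _ _)]
        refine h1.trans ?_
        rw [mul_pow]
        apply mul_le_mul_of_nonneg_right _ (sq_nonneg _)
        have : (1 : ℝ) ≤ 2 ^ r := one_le_pow₀ (by norm_num)
        nlinarith)
    have hmap1 : ∀ Ss ∈ univ.filter (fun Ss : Fin (n + 1) → Finset ι => (∀ a, (Ss a).card ≤ r) ∧
        ∀ i, (univ.filter (fun a => i ∈ Ss a)).card ≠ 1),
        (fun a : Fin n => Ss a.succ \ llA Ss) ∈
          univ.filter (fun Ss : Fin n → Finset ι => (∀ a, (Ss a).card ≤ r) ∧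
            ∀ i, (univ.filter (fun a => i ∈ Ss a)).card ≠ 1) := by
      intro Ss hSs
      exact mem_filter.2 ⟨mem_univ _, ll_s_valid (mem_filter.1 hSs).2⟩
    rw [← sum_fiberwise_of_maps_to hmap1]
    have hfib : ∀ S' ∈ univ.filter (fun Ss : Fin n → Finset ι => (∀ a, (Ss a).card ≤ r) ∧
            ∀ i, (univ.filter (fun a => i ∈ Ss a)).card ≠ 1),
        ∑ Ss ∈ (univ.filter (fun Ss : Fin (n + 1) → Finset ι => (∀ a, (Ss a).card ≤ r) ∧
          ∀ i, (univ.filter (fun a => i ∈ Ss a)).card ≠ 1)).filter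
            (fun Ss => (fun a : Fin n => Ss a.succ \ llA Ss) = S'),
          𝔼 ω : ∀ i, X i, ∏ a, h a (Ss a) ω ≤
        2 ^ (n * r) * (2 ^ (n * r) * V 0 *
          𝔼 ω : ∀ i, X i, ∏ a : Fin n, √(llH r (h a.succ) (S' a) ω)) := by
      intro S' hS'
      have hmap2 : ∀ Ss ∈ (univ.filter (fun Ss : Fin (n + 1) → Finset ι =>
          (∀ a, (Ss a).card ≤ r) ∧
          ∀ i, (univ.filter (fun a => i ∈ Ss a)).card ≠ 1)).filter
            (fun Ss => (fun a : Fin n => Ss a.succ \ llA Ss) = S'),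
          Ss 0 \ llA Ss ∈ (univ.biUnion S').powerset := by
        intro Ss hSs
        obtain ⟨h1, h2⟩ := mem_filter.1 hSs
        rw [mem_powerset, ← h2]
        exact ll_B_sub (mem_filter.1 h1).2
      rw [← sum_fiberwise_of_maps_to hmap2]
      have hcard : (univ.biUnion S').card ≤ n * r := by
        have := card_biUnion_le_card_mul (univ : Finset (Fin n)) S' r
          (fun a _ => (mem_filter.1 hS').2.1 a)
        simpa using this
      calc _ ≤ ∑ _B ∈ (univ.biUnion S').powerset, (2 ^ (n * r) * V 0 *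
          𝔼 ω : ∀ i, X i, ∏ a : Fin n, √(llH r (h a.succ) (S' a) ω)) := by
            apply sum_le_sum
            intro B _
            apply ll_fibre h hd (V 0) (hV0 0) (hV 0) S' B
            · intro Ss hSs
              obtain ⟨h1, h2⟩ := mem_filter.1 hSs
              obtain ⟨h3, h4⟩ := mem_filter.1 h1
              exact ⟨(mem_filter.1 h3).2, h2⟩
            · intro Ss hSs a
              obtain ⟨h1, h2⟩ := mem_filter.1 hSs
              obtain ⟨h3, h4⟩ := mem_filter.1 h1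
              exact congrFun h4 a
        _ ≤ _ := by
            rw [sum_const, card_powerset, nsmul_eq_mul]
            apply mul_le_mul_of_nonneg_right
            · push_cast
              exact pow_le_pow_right₀ (by norm_num) hcard
            · apply mul_nonneg (mul_nonneg (by positivity) (hV0 0))
              exact expect_nonneg fun _ _ => prod_nonneg fun _ _ => Real.sqrt_nonneg _
    refine (sum_le_sum hfib).trans ?_
    rw [← mul_sum, ← mul_sum, Fin.prod_univ_succ]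
    rw [prod_mul_distrib] at ih1
    simp only [prod_const, card_univ, Fintype.card_fin] at ih1
    calc _ ≤ 2 ^ (n * r) * (2 ^ (n * r) * V 0 * (K * ((2 ^ r) ^ n * ∏ a : Fin n, V a.succ))) := by
          apply mul_le_mul_of_nonneg_left _ (by positivity)
          exact mul_le_mul_of_nonneg_left ih1 (mul_nonneg (by positivity) (hV0 0))
      _ = _ := by ring

end

end Pool.Agent.Helper67.NX2
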